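import Pool.Agent.H47.Newt2.TIN

/-! # NEWTON2, module TAF: from affine coordinates to tori -/

set_option autoImplicit false

namespace Pool.Newt2

open MvPolynomial Pool.Agent.H39.MonoR Pool.Agent.H75.Mono Pool.Newt

namespace TAF7

open TIN47

variable {k : Type} [Field k] [Algebra k ℂ] {σ I : Type} [Fintype σ] [Fintype I]

omit [Fintype I] in
theorem aeval_tpoly (a : I → σ → ℕ) (c : I → k) (τ : Finset I) (z : σ → ℂ) :
    aeval z (tpoly a c τ) = ∑ i ∈ τ, algebraMap k ℂ (c i) * ∏ j, z j ^ a i j := by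
  unfold tpoly
  rw [map_sum]
  refine Finset.sum_congr rfl fun i _ => ?_
  rw [aeval_monomial, Finsupp.prod_fintype]
  · rfl
  · intro j
    exact pow_zero _

open Classical in
/-- gluing the coordinates -/
noncomputable def glue (F : Finset σ)
    (q : ({j // j ∈ F} → ℂ) × (({j // j ∉ F} → ℂ) × ({j // j ∉ F} → ℂ))) : σ → ℂ :=
  fun j => if h : j ∈ F then q.1 ⟨j, h⟩ else q.2.1 ⟨j, h⟩

omit [Fintype σ] in
theorem glue_in (F : Finset σ)
    (q : ({j // j ∈ F} → ℂ) × (({j // j ∉ F} → ℂ) × ({j // j ∉ F} → ℂ))) {j : σ} (h : j ∈ F) :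
    glue F q j = q.1 ⟨j, h⟩ := by
  unfold glue
  rw [dif_pos h]

omit [Fintype σ] in
theorem glue_out (F : Finset σ)
    (q : ({j // j ∈ F} → ℂ) × (({j // j ∉ F} → ℂ) × ({j // j ∉ F} → ℂ))) {j : σ} (h : j ∉ F) :
    glue F q j = q.2.1 ⟨j, h⟩ := by
  unfold glue
  rw [dif_neg h]

theorem PMap_glue (F : Finset σ) : PMap k (glue F) := by
  refine PMap.pi fun j => ?_
  by_cases h : j ∈ F
  · have e : (fun q : ({j // j ∈ F} → ℂ) × (({j // j ∉ F} → ℂ) × ({j // j ∉ F} → ℂ)) =>
        glue F q j) = fun q => q.1 ⟨j, h⟩ := funext fun q => glue_in F q h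
    rw [e]
    exact (PFun.apply (⟨j, h⟩ : {j // j ∈ F})).comp PMap.fst
  · have e : (fun q : ({j // j ∈ F} → ℂ) × (({j // j ∉ F} → ℂ) × ({j // j ∉ F} → ℂ)) =>
        glue F q j) = fun q => q.2.1 ⟨j, h⟩ := funext fun q => glue_out F q h
    rw [e]
    exact (PFun.apply (⟨j, h⟩ : {j // j ∉ F})).comp (PMap.fst.comp PMap.snd)

omit [Fintype I] in
/-- the monomials do not involve the coordinates in `F` -/
theorem prod_eq (a : I → σ → ℕ) (τ : Finset I) (F : Finset σ) [Fintype {j // j ∉ F}]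
    (hF : ∀ j ∈ F, ∀ i ∈ τ, a i j = 0)
    (q : ({j // j ∈ F} → ℂ) × (({j // j ∉ F} → ℂ) × ({j // j ∉ F} → ℂ))) {i : I} (hi : i ∈ τ) :
    ∏ j, glue F q j ^ a i j = mon q.2.1 (fun j : {j // j ∉ F} => (a i j : ℤ)) := by
  classical
  have h1 : ∏ j, glue F q j ^ a i j = ∏ j ∈ Fᶜ, glue F q j ^ a i j :=
    (Finset.prod_subset (Finset.subset_univ _) fun j _ hj => by
      rw [Finset.mem_compl, not_not] at hj
      rw [hF j hj i hi, pow_zero]).symm
  rw [h1, Finset.prod_subtype Fᶜ (fun x => Finset.mem_compl)]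
  unfold mon
  refine Finset.prod_congr rfl fun j _ => ?_
  rw [glue_out F q j.2, zpow_natCast]

end TAF7

open TAF7 TIN47

theorem sTaf : STaf := by
  classical
  intro k _ _ σ I _ _ a c τ F v hF
  have hB : ICons k {z : σ → ℂ | (∀ j, j ∉ F → z j ≠ 0) ∧
      aeval z (tpoly a c τ) = algebraMap k ℂ v} := by
    refine ICons.and ?_ ?_
    · refine ICons.forall_fin fun j => ?_
      by_cases h : j ∈ F
      · have e : {z : σ → ℂ | j ∉ F → z j ≠ 0} = Set.univ :=
          Set.eq_univ_of_forall fun z h' => absurd h h'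
        rw [e]
        exact ICons.univ
      · have e : {z : σ → ℂ | j ∉ F → z j ≠ 0} = {z : σ → ℂ | z j ≠ 0} :=
          Set.ext fun z => ⟨fun h' => h' h, fun h' _ => h'⟩
        rw [e]
        exact ICons.ne (PFun.apply j) PFun.zero
    · refine ICons.eq ?_ (PFun.const v)
      have e : (fun z : σ → ℂ => aeval z (tpoly a c τ)) =
          fun z => ∑ i ∈ τ, algebraMap k ℂ (c i) * ∏ j, z j ^ a i j :=
        funext fun z => aeval_tpoly a c τ z
      rw [e]
      refine PFun.sum τ fun i _ => PFun.mul (PFun.const (c i)) ?_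
      have key : ∀ s : Finset σ, PFun k (fun z : σ → ℂ => ∏ j ∈ s, z j ^ a i j) := by
        intro s
        induction s using Finset.induction_on with
        | empty =>
          have e1 : (fun z : σ → ℂ => ∏ j ∈ (∅ : Finset σ), z j ^ a i j) = fun _ => (1 : ℂ) :=
            funext fun z => Finset.prod_empty
          rw [e1]
          exact PFun.one
        | insert b s hb ih =>
          have e1 : (fun z : σ → ℂ => ∏ j ∈ insert b s, z j ^ a i j) =
              fun z => z b ^ a i b * ∏ j ∈ s, z j ^ a i j :=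
            funext fun z => Finset.prod_insert hb
          rw [e1]
          exact PFun.mul (PFun.pow (PFun.apply b) _) ih
      exact key Finset.univ
  have hA := ICons_TC (k := k) (J := {j // j ∉ F}) c τ (fun i (j : {j // j ∉ F}) => (a i j : ℤ)) v
  have hU : mo k (Set.univ : Set ({j // j ∈ F} → ℂ)) = (↑(Lu k) : M k) ^ F.card := by
    rw [mo_univ_pi, Nat.card_eq_fintype_card, Fintype.card_coe, zpow_natCast, Units.val_pow_eq_pow_val]
  unfold TC
  rw [← hU, ← mo_prod ICons.univ hA]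
  refine (mo_bij (k := k) ?_ hB (PMap_glue (k := k) F) ⟨?_, ?_, ?_⟩).symm
  · exact ICons.and (ICons.mem ICons.univ PMap.fst) (hA.mem PMap.snd)
  · rintro q ⟨_, hq, he⟩
    refine ⟨fun j hj => ?_, ?_⟩
    · rw [glue_out F q hj]
      exact Tor_ne hq ⟨j, hj⟩
    · rw [aeval_tpoly, ← he]
      exact Finset.sum_congr rfl fun i hi => by rw [prod_eq a τ F hF q hi]
  · rintro q ⟨_, hq, _⟩ q' ⟨_, hq', _⟩ h
    have h1 : q.1 = q'.1 := by
      funext j
      have h2 := congrFun h j.1
      rw [glue_in F q j.2, glue_in F q' j.2] at h2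
      exact h2
    have h3 : q.2.1 = q'.2.1 := by
      funext j
      have h2 := congrFun h j.1
      rw [glue_out F q j.2, glue_out F q' j.2] at h2
      exact h2
    exact Prod.ext h1 (Tor_ext hq hq' h3)
  · rintro z ⟨hz, he⟩
    let q : ({j // j ∈ F} → ℂ) × (({j // j ∉ F} → ℂ) × ({j // j ∉ F} → ℂ)) :=
      (fun j => z j, (fun j => z j, fun j => (z j)⁻¹))
    have hg : glue F q = z := by
      funext j
      by_cases h : j ∈ F
      · exact glue_in F q h
      · exact glue_out F q h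
    refine ⟨q, ⟨Set.mem_univ _, fun j => mul_inv_cancel₀ (hz j.1 j.2), ?_⟩, hg⟩
    rw [← he]
    conv_rhs => rw [← hg, aeval_tpoly]
    exact Finset.sum_congr rfl fun i hi => by rw [prod_eq a τ F hF q hi]

end Pool.Newt2
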